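import Pool.Agent.helper51.VR.Spec

set_option autoImplicit false

namespace Pool.Agent.VR

open Pool.Agent.RB NumberField IsDedekindDomain Module
open scoped nonZeroDivisors Real Classical IsMulCommutative TensorProduct

/-- existence of a rational vector space generated by a commutative group with operators -/
theorem MDL_gen (G : Type) [Group G] (U : Type) [CommGroup U] (a : G →* Monoid.End U) :
    ∃ (W : Type) (_ : AddCommGroup W) (_ : Module (MonoidAlgebra ℚ G) W) (ι : U → W),
      (∀ x y, ι (x * y) = ι x + ι y) ∧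
      (∀ (σ : G) (x : U), ι (a σ x) = (MonoidAlgebra.single σ (1 : ℚ) : MonoidAlgebra ℚ G) • ι x) ∧
      (∀ w : W, ∃ (n : ℕ) (x : U), n ≠ 0 ∧ n • w = ι x) ∧
      (∀ x, ι x = 0 → ∃ n : ℕ, n ≠ 0 ∧ x ^ n = 1) := by
  let ρ0 : G →* Module.End ℤ (Additive U) :=
    { toFun := fun σ => (MonoidHom.toAdditive (a σ)).toIntLinearMap
      map_one' := by
        ext x
        simp
        rfl
      map_mul' := by
        intro σ τ
        ext x
        simp
        rfl }
  let ρ : G →* Module.End ℚ (ℚ ⊗[ℤ] Additive U) :=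
    (Module.End.baseChangeHom ℤ ℚ (Additive U) : Module.End ℤ (Additive U) →* Module.End ℚ (ℚ ⊗[ℤ] Additive U)).comp ρ0
  let A : MonoidAlgebra ℚ G →ₐ[ℚ] Module.End ℚ (ℚ ⊗[ℤ] Additive U) := MonoidAlgebra.lift ℚ _ _ ρ
  letI mW : Module (MonoidAlgebra ℚ G) (ℚ ⊗[ℤ] Additive U) := Module.compHom _ A.toRingHom
  have hsm : ∀ (y : MonoidAlgebra ℚ G) (w : ℚ ⊗[ℤ] Additive U), y • w = A y w := fun _ _ => rfl
  have hloc : IsLocalizedModule (nonZeroDivisors ℤ) (TensorProduct.mk ℤ ℚ (Additive U) 1) :=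
    (isLocalizedModule_iff_isBaseChange (nonZeroDivisors ℤ) ℚ _).mpr (TensorProduct.isBaseChange ℤ (Additive U) ℚ)
  refine ⟨ℚ ⊗[ℤ] Additive U, inferInstance, mW, fun x => TensorProduct.mk ℤ ℚ (Additive U) 1 (Additive.ofMul x), ?_, ?_, ?_, ?_⟩
  · intro x y
    show TensorProduct.mk ℤ ℚ (Additive U) 1 (Additive.ofMul (x * y)) = TensorProduct.mk ℤ ℚ (Additive U) 1 (Additive.ofMul x) +
      TensorProduct.mk ℤ ℚ (Additive U) 1 (Additive.ofMul y)
    rw [ofMul_mul, map_add]
  · intro σ x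
    rw [hsm]
    show _ = (MonoidAlgebra.lift ℚ _ _ ρ) (MonoidAlgebra.single σ 1) _
    rw [MonoidAlgebra.lift_single, one_smul]
    rfl
  · intro w
    obtain ⟨⟨x, s⟩, hs⟩ := IsLocalizedModule.surj (nonZeroDivisors ℤ) (TensorProduct.mk ℤ ℚ (Additive U) 1) w
    have hs0 : (s : ℤ) ≠ 0 := nonZeroDivisors.coe_ne_zero s
    have hs1 : (s : ℤ) • w = TensorProduct.mk ℤ ℚ (Additive U) 1 x := hs
    rcases Int.natAbs_eq (s : ℤ) with h | h
    · refine ⟨(s : ℤ).natAbs, Additive.toMul x, by simpa using hs0, ?_⟩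
      show _ = TensorProduct.mk ℤ ℚ (Additive U) 1 x
      rw [← hs1, ← natCast_zsmul, ← h]
    · refine ⟨(s : ℤ).natAbs, (Additive.toMul x)⁻¹, by simpa using hs0, ?_⟩
      show _ = TensorProduct.mk ℤ ℚ (Additive U) 1 (-x)
      rw [map_neg, ← hs1, ← natCast_zsmul, ← neg_smul]
      rw [show ((s : ℤ).natAbs : ℤ) = -(s : ℤ) by omega]
  · intro x hx
    obtain ⟨s, hs⟩ := (IsLocalizedModule.eq_zero_iff (nonZeroDivisors ℤ) (TensorProduct.mk ℤ ℚ (Additive U) 1)).mp hx
    have hs0 : (s : ℤ) ≠ 0 := nonZeroDivisors.coe_ne_zero s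
    have hs1 : (s : ℤ) • (Additive.ofMul x) = 0 := hs
    refine ⟨(s : ℤ).natAbs, by simpa using hs0, ?_⟩
    have h2 : x ^ (s : ℤ) = 1 := hs1
    rcases Int.natAbs_eq (s : ℤ) with h | h
    · rw [h, zpow_natCast] at h2
      exact h2
    · rw [h, zpow_neg, zpow_natCast] at h2
      exact inv_eq_one.mp h2

theorem MDL (hPWR : PWR_stmt) : MDL_stmt := by
  intro F H _ _ _ _ _ _ _ r D
  have hst := (hPWR F H (D.T : Set (HOS F)) (Set.range D.v)).1
  have hmem : ∀ (σ : H ≃ₐ[F] H) (x : UU D), Units.map ((σ : H →+* H) : H →* H) (x : Hˣ) ∈ UU D := by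
    intro σ x
    exact hst σ x x.2 _ rfl
  let a : (H ≃ₐ[F] H) →* Monoid.End (UU D) :=
    { toFun := fun σ =>
        { toFun := fun x => ⟨Units.map ((σ : H →+* H) : H →* H) (x : Hˣ), hmem σ x⟩
          map_one' := by
            apply Subtype.ext
            exact map_one _
          map_mul' := by
            intro x y
            apply Subtype.ext
            exact map_mul _ _ _ }
      map_one' := by
        ext x
        rfl
      map_mul' := by
        intro σ τ
        ext x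
        rfl }
  obtain ⟨W, iW, mW, ι, h1, h2, h3, h4⟩ := MDL_gen (H ≃ₐ[F] H) (UU D) a
  letI mW' : Module (QGr F H) W := mW
  have hN : ∀ (y : QGr F H) (w : W), sg D.c • w = -w → sg D.c • (y • w) = -(y • w) := by
    intro y w hw
    rw [smul_smul, mul_comm, ← smul_smul, hw, smul_neg]
  let N : Submodule (QGr F H) W :=
    { carrier := {w | sg D.c • w = -w}
      zero_mem' := by simp
      add_mem' := by
        intro x y hx hy
        have hx' : sg D.c • x = -x := hx
        have hy' : sg D.c • y = -y := hy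
        show sg D.c • (x + y) = -(x + y)
        rw [smul_add, hx', hy', neg_add]
      smul_mem' := fun y w hw => hN y w hw }
  refine ⟨W, N, iW, mW', inferInstance, inferInstance, ι, N.subtype, ⟨h1, ?_, h3, h4⟩, ?_, ?_⟩
  · intro σ x y hxy
    have hy : y = a σ x := by
      apply Subtype.ext
      apply Units.ext
      exact hxy
    rw [hy]
    exact h2 σ x
  · exact Subtype.val_injective
  · intro w
    constructor
    · rintro ⟨x, rfl⟩
      exact x.2
    · intro hw
      exact ⟨⟨w, hw⟩, rfl⟩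

end Pool.Agent.VR
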